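import Mathlib
import Pool.Agent.R376.KSets
import Pool.Agent.R376.Lucas

namespace Pool.Agent.Results.MP_82795f_nt.InfinitelyMany

open Pool.Agent.R376.KSets

theorem dvd_mul_choose (n j : ℕ) : n ∣ j * n.choose j := by
  cases n with
  | zero =>
    cases j with
    | zero => simp
    | succ j => simp
  | succ n =>
    cases j with
    | zero => simp
    | succ j =>
      rw [mul_comm, ← Nat.add_one_mul_choose_eq]
      exact Dvd.intro _ rfl

theorem coprime_sub_mul {n q c : ℕ} (h : Nat.Coprime n q) (hle : c * n ≤ q) :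
    Nat.Coprime n (q - c * n) := by
  obtain ⟨d, rfl⟩ := Nat.exists_eq_add_of_le hle
  rw [Nat.add_sub_cancel_left]
  rw [add_comm, Nat.coprime_comm, Nat.coprime_add_mul_right_left] at h
  exact h.symm

/-- If some base-`p` digit of `i` exceeds that of `u`, then `p ∣ u.choose i`. -/
theorem dvd_choose_of_digit {p u i : ℕ} (hp : p.Prime) (b : ℕ)
    (h : (u / p ^ b) % p < (i / p ^ b) % p) : p ∣ u.choose i := by
  have : Fact p.Prime := ⟨hp⟩
  have h1 := Choose.choose_modEq_choose_mul_prod_range_choose (p := p) (n := u) (k := i) (b + 1)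
  have h3 : ∏ j ∈ Finset.range (b + 1), Nat.choose (u / p ^ j % p) (i / p ^ j % p) = 0 :=
    Finset.prod_eq_zero (Finset.mem_range.mpr (Nat.lt_succ_self b)) (Nat.choose_eq_zero_of_lt h)
  rw [← Int.natCast_dvd_natCast]
  rw [h3] at h1
  simp only [Nat.cast_zero, mul_zero] at h1
  exact Int.dvd_of_emod_eq_zero h1

theorem bits_of_odd_choose {u i : ℕ} (h : ¬ 2 ∣ u.choose i) (b : ℕ) (hb : i.testBit b = true) :
    u.testBit b = true := by
  by_contra hu
  apply h
  apply dvd_choose_of_digit Nat.prime_two b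
  rw [Nat.testBit_eq_decide_div_mod_eq] at hb hu
  simp only [decide_eq_true_eq] at hb hu
  omega

/-- The case `u` odd. -/
theorem even_choose_of_odd {t N x : ℕ} (ht : 2 ≤ t) (hMe : Even (N + t)) (hx : x < 2 ^ N)
    (hxo : x % 2 = 1) (hN : 1 ≤ N) : 2 ∣ (2 ^ N + x).choose (2 ^ t * x - 1) := by
  by_contra hodd
  have hdom := fun b => bits_of_odd_choose hodd b
  -- bits of `i`
  have hi1 : ∀ r, r < t → (2 ^ t * x - 1).testBit r = true := by
    intro r hr
    have : 2 ^ t * x - 1 = 2 ^ t * (x - 1) + (2 ^ t - 1) := by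
      obtain ⟨y, rfl⟩ : ∃ y, x = y + 1 := ⟨x - 1, by omega⟩
      have := Nat.one_le_two_pow (n := t)
      rw [Nat.add_sub_cancel, mul_add, mul_one]
      omega
    rw [this, Nat.testBit_two_pow_mul_add _ (by have := Nat.one_le_two_pow (n := t); omega)]
    rw [if_pos hr, Nat.testBit_two_pow_sub_one]
    simpa using hr
  have hi2 : ∀ b, 1 ≤ b → x.testBit b = true → (2 ^ t * x - 1).testBit (b + t) = true := by
    intro b hb hxb
    have : 2 ^ t * x - 1 = 2 ^ t * (x - 1) + (2 ^ t - 1) := by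
      obtain ⟨y, rfl⟩ : ∃ y, x = y + 1 := ⟨x - 1, by omega⟩
      have := Nat.one_le_two_pow (n := t)
      rw [Nat.add_sub_cancel, mul_add, mul_one]
      omega
    rw [this, Nat.testBit_two_pow_mul_add _ (by have := Nat.one_le_two_pow (n := t); omega)]
    rw [if_neg (by omega), Nat.add_sub_cancel]
    obtain ⟨y, rfl⟩ : ∃ y, x = 2 * y + 1 := ⟨x / 2, by omega⟩
    obtain ⟨c, rfl⟩ : ∃ c, b = c + 1 := ⟨b - 1, by omega⟩
    rw [Nat.testBit_succ] at hxb ⊢
    rw [show (2 * y + 1) / 2 = y by omega] at hxb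
    rw [show (2 * y + 1 - 1) / 2 = y by omega]
    exact hxb
  have hu : ∀ b, b ≠ N → (2 ^ N + x).testBit b = true → x.testBit b = true := by
    intro b hb h
    rw [show 2 ^ N + x = 2 ^ N * 1 + x by ring, Nat.testBit_two_pow_mul_add _ hx] at h
    split_ifs at h with h1
    · exact h
    · rw [Nat.testBit_one_eq_true_iff_self_eq_zero] at h
      omega
  have chain : ∀ r, 1 ≤ r → r < t → ∃ s, r + s * t = N := by
    intro r hr1 hrt
    by_contra hno
    push Not at hno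
    have hall : ∀ s, (2 ^ N + x).testBit (r + s * t) = true := by
      intro s
      induction s with
      | zero => simpa using hdom _ (hi1 r hrt)
      | succ s ih =>
        have h1 := hu _ (hno s) ih
        have h2 := hdom _ (hi2 _ (by omega) h1)
        rw [show r + (s + 1) * t = r + s * t + t by ring]
        exact h2
    have hbig := hall (N + 1)
    have hlt : 2 ^ N + x < 2 ^ (r + (N + 1) * t) := by
      calc 2 ^ N + x < 2 ^ (N + 1) := by rw [pow_succ]; omega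
        _ ≤ 2 ^ (r + (N + 1) * t) := by
          apply Nat.pow_le_pow_right (by norm_num)
          nlinarith
    rw [Nat.testBit_lt_two_pow hlt] at hbig
    exact absurd hbig (by simp)
  obtain ⟨s1, hs1⟩ := chain 1 le_rfl (by omega)
  rcases Nat.lt_or_ge 2 t with h3 | h3
  · obtain ⟨s2, hs2⟩ := chain 2 (by norm_num) h3
    have e1 : N % t = 1 := by
      rw [← hs1, Nat.add_mul_mod_self_right, Nat.mod_eq_of_lt (by omega)]
    have e2 : N % t = 2 := by
      rw [← hs2, Nat.add_mul_mod_self_right, Nat.mod_eq_of_lt (by omega)]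
    omega
  · have ht2 : t = 2 := by omega
    subst ht2
    rw [Nat.even_iff] at hMe
    omega

/-- The case `u` even. -/
theorem dvd_of_even {t N x v w : ℕ} (ht : 2 ≤ t) (hx : x < 2 ^ N) (hx0 : 0 < x)
    (hv : 1 ≤ v) (hw : w % 2 = 1) (huv : 2 ^ N + x = 2 ^ v * w) :
    2 ^ (v + 1) ∣ (2 * (2 ^ N + x)).choose (2 * (2 ^ t * x - 1)) := by
  -- `v < N`
  have hvN : v < N := by
    by_contra hge
    push Not at hge
    obtain ⟨d, rfl⟩ := Nat.exists_eq_add_of_le hge
    rw [pow_add, mul_assoc] at huv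
    have h1 : 2 ^ N * 1 < 2 ^ N * (2 ^ d * w) := by omega
    have h2 : 2 ^ N * (2 ^ d * w) < 2 ^ N * 2 := by omega
    have h3 := Nat.lt_of_mul_lt_mul_left h1
    have h4 := Nat.lt_of_mul_lt_mul_left h2
    omega
  have hvx : 2 ^ v ∣ x := by
    have h1 : 2 ^ v ∣ 2 ^ N + x := ⟨w, huv⟩
    exact (Nat.dvd_add_right (pow_dvd_pow 2 hvN.le)).mp h1
  obtain ⟨x', rfl⟩ := hvx
  have hx' : 0 < x' := Nat.pos_of_mul_pos_left hx0 |> fun _ => by
    rcases Nat.eq_zero_or_pos x' with h0 | h0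
    · subst h0; simp at hx0
    · exact h0
  obtain ⟨t', rfl⟩ := Nat.exists_eq_add_of_le (show 1 ≤ t by omega)
  obtain ⟨y, hy⟩ : ∃ y, 2 ^ t' * x' = y + 1 :=
    ⟨2 ^ t' * x' - 1, by have : 0 < 2 ^ t' * x' := by positivity
                         omega⟩
  have hi : 2 ^ (1 + t') * (2 ^ v * x') = 2 ^ (v + 1) * (y + 1) := by
    rw [← hy]; ring
  have h2v : 2 ≤ 2 ^ v := by
    calc 2 = 2 ^ 1 := by norm_num
      _ ≤ 2 ^ v := Nat.pow_le_pow_right (by norm_num) hv
  have hpv : 2 ^ (v + 1) = 2 * 2 ^ v := by ring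
  set u := 2 ^ N + 2 ^ v * x' with hu
  set i := 2 ^ (1 + t') * (2 ^ v * x') - 1 with hidef
  have hi' : i = 2 ^ (v + 1) * y + (2 ^ (v + 1) - 1) := by
    have : 2 ^ (v + 1) * (y + 1) = 2 ^ (v + 1) * y + 2 ^ (v + 1) := by ring
    omega
  -- `C(2u-1, 2i-1)` is even
  have heven : 2 ∣ (2 * u - 1).choose (2 * i - 1) := by
    apply dvd_choose_of_digit Nat.prime_two (v + 1)
    have e1 : (2 * u - 1) / 2 ^ (v + 1) % 2 = 0 := by
      obtain ⟨w', rfl⟩ : ∃ w', w = 2 * w' + 1 := ⟨w / 2, by omega⟩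
      have : 2 * u - 1 = 2 ^ (v + 1) * (2 * w') + (2 ^ (v + 1) - 1) := by
        rw [huv]
        have h1 : 2 * (2 ^ v * (2 * w' + 1)) = 2 ^ (v + 1) * (2 * w') + 2 ^ (v + 1) := by ring
        omega
      rw [this, Nat.mul_add_div (by positivity), Nat.div_eq_of_lt (by omega), add_zero]
      omega
    have e2 : (2 * i - 1) / 2 ^ (v + 1) % 2 = 1 := by
      have : 2 * i - 1 = 2 ^ (v + 1) * (2 * y + 1) + (2 ^ (v + 1) - 3) := by
        rw [hi']
        have h1 : 2 ^ (v + 1) * (2 * y + 1) = 2 * (2 ^ (v + 1) * y) + 2 ^ (v + 1) := by ring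
        omega
      rw [this, Nat.mul_add_div (by positivity), Nat.div_eq_of_lt (by omega), add_zero]
      omega
    omega
  have h1 : 2 ^ (v + 1) ∣ i * (2 * u).choose (2 * i) := by
    have h2 : 0 < i := by omega
    have h3 : (2 * u) * (2 * u - 1).choose (2 * i - 1) = (2 * u).choose (2 * i) * (2 * i) := by
      have := Nat.add_one_mul_choose_eq (2 * u - 1) (2 * i - 1)
      rwa [Nat.sub_add_cancel (by omega), Nat.sub_add_cancel (by omega)] at this
    obtain ⟨c, hc⟩ := heven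
    have h4 : i * (2 * u).choose (2 * i) = u * (2 * c) := by
      rw [hc] at h3
      have : 2 * (i * (2 * u).choose (2 * i)) = 2 * (u * (2 * c)) := by
        rw [show 2 * (i * (2 * u).choose (2 * i)) = (2 * u).choose (2 * i) * (2 * i) by ring, ← h3]
        ring
      omega
    rw [h4, huv]
    exact ⟨w * c, by ring⟩
  have h5 : Nat.Coprime (2 ^ (v + 1)) i := by
    apply Nat.Coprime.pow_left
    rw [Nat.coprime_two_left]
    rw [Nat.odd_iff, hi']
    have : (2 ^ (v + 1) * y + (2 ^ (v + 1) - 1)) = 2 * (2 ^ v * y + 2 ^ v - 1) + 1 := by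
      have h1 : 2 ^ (v + 1) * y = 2 * (2 ^ v * y) := by ring
      omega
    omega
  exact h5.dvd_of_dvd_mul_left h1

theorem core {t M u q : ℕ} (ht : 2 ≤ t) (hMe : Even M) (hM : 2 ≤ M) (hq : q.Prime)
    (hqM : q = 2 ^ M + 1) (h1 : q ≤ 2 ^ t * u) (h2 : (2 ^ t - 1) * u ≤ q) :
    2 * u ∣ (2 * u).choose (2 * (q - (2 ^ t - 1) * u)) := by
  have h4t : 4 ≤ 2 ^ t := by
    calc 4 = 2 ^ 2 := by norm_num
      _ ≤ 2 ^ t := Nat.pow_le_pow_right (by norm_num) ht
  have h4M : 4 ≤ 2 ^ M := by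
    calc 4 = 2 ^ 2 := by norm_num
      _ ≤ 2 ^ M := Nat.pow_le_pow_right (by norm_num) hM
  have hu0 : 0 < u := by
    rcases Nat.eq_zero_or_pos u with h0 | h0
    · subst h0; simp at h1; omega
    · exact h0
  have htM : t < M := by
    by_contra hge
    push Not at hge
    obtain ⟨d, rfl⟩ := Nat.exists_eq_add_of_le hge
    have h3 : (2 ^ (M + d) - 1) * 1 ≤ (2 ^ (M + d) - 1) * u := Nat.mul_le_mul_left _ hu0
    rw [pow_add] at h3 h2 h1
    have h5 : 2 ^ d ≤ 1 := by
      by_contra h6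
      have : 2 ^ M * 2 ≤ 2 ^ M * 2 ^ d := Nat.mul_le_mul_left _ (by omega)
      omega
    have h6 : 2 ^ d = 1 := by have := Nat.one_le_two_pow (n := d); omega
    rw [h6, mul_one] at h1 h2
    have h7 : 2 ≤ u := by
      by_contra h8
      have : u = 1 := by omega
      subst this
      omega
    have h8 : (2 ^ M - 1) * 2 ≤ (2 ^ M - 1) * u := Nat.mul_le_mul_left _ h7
    omega
  obtain ⟨N, rfl⟩ : ∃ N, M = N + t := ⟨M - t, by omega⟩
  have hN : 1 ≤ N := by omega
  -- u = 2^N + x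
  have hpow : 2 ^ (N + t) = 2 ^ t * 2 ^ N := by ring
  have hux : 2 ^ N < u := by
    by_contra hle
    have : 2 ^ t * u ≤ 2 ^ t * 2 ^ N := Nat.mul_le_mul_left _ (by omega)
    omega
  obtain ⟨z, hz, rfl⟩ : ∃ z, 0 < z ∧ u = 2 ^ N + z := ⟨u - 2 ^ N, by omega, by omega⟩
  -- z < 2^N
  have hc : (2 ^ t - 1) * (2 ^ N + z) = 2 ^ (N + t) - 2 ^ N + (2 ^ t - 1) * z := by
    rw [Nat.sub_mul, Nat.sub_mul, hpow]
    have h3 : 2 ^ N ≤ 2 ^ t * 2 ^ N := Nat.le_mul_of_pos_left _ (by positivity)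
    have h5 : z ≤ 2 ^ t * z := Nat.le_mul_of_pos_left _ (by positivity)
    have h6 : 2 ^ t * (2 ^ N + z) = 2 ^ t * 2 ^ N + 2 ^ t * z := by ring
    omega
  have h2N : 2 ^ N ≤ 2 ^ (N + t) := Nat.pow_le_pow_right (by norm_num) (by omega)
  have h2N1 : 2 ≤ 2 ^ N := by
    calc 2 = 2 ^ 1 := by norm_num
      _ ≤ 2 ^ N := Nat.pow_le_pow_right (by norm_num) hN
  have hz1 : (2 ^ t - 1) * z ≤ 2 ^ N + 1 := by omega
  have hz3 : 3 * z ≤ (2 ^ t - 1) * z := Nat.mul_le_mul_right z (by omega)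
  have hz2 : z < 2 ^ N := by omega
  -- j' and i
  have hzt : 2 ^ t * z = (2 ^ t - 1) * z + z := by
    rw [Nat.sub_mul, one_mul]
    have h5 : z ≤ 2 ^ t * z := Nat.le_mul_of_pos_left _ (by positivity)
    omega
  have hj : q - (2 ^ t - 1) * (2 ^ N + z) = (2 ^ N + z) - (2 ^ t * z - 1) := by
    rw [hc, hqM]; omega
  have hile : 2 ^ t * z - 1 ≤ 2 ^ N + z := by omega
  have hsym : (2 * (2 ^ N + z)).choose (2 * (q - (2 ^ t - 1) * (2 ^ N + z))) =
      (2 * (2 ^ N + z)).choose (2 * (2 ^ t * z - 1)) := by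
    rw [hj, Nat.mul_sub]
    exact Nat.choose_symm (show 2 * (2 ^ t * z - 1) ≤ 2 * (2 ^ N + z) by omega)
  -- odd part
  have hcopq : Nat.Coprime (2 ^ N + z) (q - (2 ^ t - 1) * (2 ^ N + z)) := by
    have : Nat.Coprime (2 ^ N + z) q := by
      rw [Nat.coprime_comm]
      apply (Nat.Prime.coprime_iff_not_dvd hq).mpr
      intro hd
      have := Nat.le_of_dvd (by omega) hd
      have h4N : 4 * 2 ^ N ≤ 2 ^ t * 2 ^ N := Nat.mul_le_mul_right _ h4t
      omega
    exact coprime_sub_mul this h2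
  have hodd : (2 ^ N + z) ∣ (2 * (2 ^ N + z)).choose (2 * (q - (2 ^ t - 1) * (2 ^ N + z))) := by
    have h3 := dvd_mul_choose (2 * (2 ^ N + z)) (2 * (q - (2 ^ t - 1) * (2 ^ N + z)))
    rw [mul_assoc] at h3
    have h5 := Nat.dvd_of_mul_dvd_mul_left (by norm_num) h3
    exact hcopq.dvd_of_dvd_mul_left h5
  obtain ⟨v, w, hw, hvw⟩ := Nat.exists_eq_two_pow_mul_odd (n := 2 ^ N + z) (by omega)
  rw [Nat.odd_iff] at hw
  have hkey : 2 ^ (v + 1) ∣
      (2 * (2 ^ N + z)).choose (2 * (q - (2 ^ t - 1) * (2 ^ N + z))) := by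
    rw [hsym]
    rcases Nat.eq_zero_or_pos v with h0 | h0
    · subst h0
      rw [pow_zero, one_mul] at hvw
      have h3 : z % 2 = 1 := by
        have : 2 ^ N = 2 * 2 ^ (N - 1) := by
          rw [← pow_succ', Nat.sub_add_cancel hN]
        omega
      have h5 := even_choose_of_odd ht hMe hz2 h3 hN
      have : Fact (Nat.Prime 2) := ⟨Nat.prime_two⟩
      have h6 := Choose.choose_mul_mul_modEq_choose_nat (p := 2) (a := 2 ^ N + z)
        (b := 2 ^ t * z - 1)
      rw [zero_add, pow_one]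
      exact (Nat.ModEq.dvd_iff h6 dvd_rfl).mpr h5
    · exact dvd_of_even ht hz2 (by omega) h0 hw hvw
  have hww : w ∣ (2 * (2 ^ N + z)).choose (2 * (q - (2 ^ t - 1) * (2 ^ N + z))) :=
    (Dvd.intro_left _ hvw.symm).trans hodd
  have hcop2 : Nat.Coprime (2 ^ (v + 1)) w := by
    apply Nat.Coprime.pow_left
    rw [Nat.coprime_two_left, Nat.odd_iff]
    exact hw
  have := hcop2.mul_dvd_of_dvd_of_dvd hkey hww
  rwa [show 2 ^ (v + 1) * w = 2 * (2 ^ N + z) by rw [hvw]; ring] at this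

theorem subset_K {t : ℕ} (ht : 2 ≤ t) : S ⊆ K (2 ^ t - 1) := by
  rintro k ⟨q, ⟨hq, m, hm⟩, hq3, rfl⟩
  refine ⟨by omega, ?_⟩
  intro n h1 h2
  have h4t : 4 ≤ 2 ^ t := by
    calc 4 = 2 ^ 2 := by norm_num
      _ ≤ 2 ^ t := Nat.pow_le_pow_right (by norm_num) ht
  rw [Nat.sub_add_cancel (by omega)] at h1
  have hm1 : 1 ≤ m := by
    rcases Nat.eq_zero_or_pos m with h0 | h0
    · subst h0; norm_num at hm; omega
    · exact h0
  have hMe : Even (2 ^ m) := (Nat.even_pow' (by omega)).mpr even_two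
  have hM2 : 2 ≤ 2 ^ m := by
    calc 2 = 2 ^ 1 := by norm_num
      _ ≤ 2 ^ m := Nat.pow_le_pow_right (by norm_num) hm1
  have hn0 : 0 < n := by
    rcases Nat.eq_zero_or_pos n with h0 | h0
    · subst h0; simp at h1; omega
    · exact h0
  rcases Nat.even_or_odd' n with ⟨u, hu | hu⟩
  · subst hu
    have := core ht hMe hM2 hq hm (u := u) (by
        have : 2 ^ t * (2 * u) = 2 * (2 ^ t * u) := by ring
        omega) (by
        have : (2 ^ t - 1) * (2 * u) = 2 * ((2 ^ t - 1) * u) := by ring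
        omega)
    rwa [Nat.mul_sub, show 2 * ((2 ^ t - 1) * u) = (2 ^ t - 1) * (2 * u) by ring] at this
  · have h3 := dvd_mul_choose n (2 * q - (2 ^ t - 1) * n)
    have h3n : 3 * n ≤ (2 ^ t - 1) * n := Nat.mul_le_mul_right n (by omega)
    have hcq : Nat.Coprime n (2 * q) := by
      apply Nat.Coprime.mul_right
      · rw [Nat.coprime_comm, Nat.coprime_two_left]
        exact ⟨u, hu⟩
      · rw [Nat.coprime_comm]
        apply (Nat.Prime.coprime_iff_not_dvd hq).mpr
        intro hd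
        have := Nat.le_of_dvd hn0 hd
        omega
    have hcop : Nat.Coprime n (2 * q - (2 ^ t - 1) * n) := by
      exact coprime_sub_mul hcq h2
    exact hcop.dvd_of_dvd_mul_left h3

/-- There are infinitely many `c ≥ 2` with `S ⊆ K c`. -/
theorem result : {c : ℕ | 2 ≤ c ∧ S ⊆ K c}.Infinite := by
  apply Set.infinite_of_injective_forall_mem (f := fun t : ℕ => 2 ^ (t + 2) - 1)
  · intro a b hab
    simp only at hab
    have ha := Nat.one_le_two_pow (n := a + 2)
    have hb := Nat.one_le_two_pow (n := b + 2)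
    have : 2 ^ (a + 2) = 2 ^ (b + 2) := by omega
    have := Nat.pow_right_injective (le_refl 2) this
    omega
  · intro t
    refine ⟨?_, subset_K (by omega)⟩
    have : 4 ≤ 2 ^ (t + 2) := by
      calc 4 = 2 ^ 2 := by norm_num
        _ ≤ 2 ^ (t + 2) := Nat.pow_le_pow_right (by norm_num) (by omega)
    show 2 ≤ 2 ^ (t + 2) - 1
    omega

end Pool.Agent.Results.MP_82795f_nt.InfinitelyMany
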