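import Mathlib
import Pool.Agent.R376.KSets

namespace Pool.Agent.Results.MP_82795f_nt.MultiplesOfThree

open Pool.Agent.R376.KSets

theorem result :
    ¬ (∀ c : ℕ, 0 < c → 3 ∣ c → S ⊆ K c) := by
  intro H
  have h := H 12 (by norm_num) (by norm_num)
  have hS : 514 ∈ S := by
    refine ⟨257, ⟨by norm_num, 3, by norm_num⟩, by norm_num, by norm_num⟩
  have hK := (h hS).2 40 (by norm_num) (by norm_num)
  have hc : Nat.choose 40 (514 - 12 * 40) = 3838380 := by
    decide +kernel
  rw [hc] at hK
  norm_num at hK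

end Pool.Agent.Results.MP_82795f_nt.MultiplesOfThree
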